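import Pool.Agent.H121.SH.IfM
import Pool.Agent.H721.SH.Resn

/-! Project SH, part M: resonant neighbours, potentials in a set (`S_resnA`). Port of
`Pool/Agent/H721/SH/Resn.lean`. -/

set_option autoImplicit false

open scoped BigOperators InnerProductSpace Topology ENNReal
open Filter MeasureTheory

namespace Pool.Agent.H550.SH

open Pool.Agent.H121.Z987 (lint_resample update_meas)
open Pool.Agent.H121.SH
open Pool.Agent.H721.SH (enr sum_rpow_le ptw)

/-- `S_resnA` -/
theorem resnA (hsch : S_sch) (hpair : S_pair) (hone : S_oneA) (htwo : S_twoA) (hmeas : S_measR) :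
    S_resnA := by
  intro D lam h hD hlam1 hh hh2 μ _ As hAs hDn ι _ K t N hG Ω z x x' y hz hxΩ hx' hyx
  classical
  have hlam : 0 < lam := lt_of_lt_of_le one_pos hlam1
  obtain ⟨s, hsdef⟩ : ∃ s : ℝ, s = 1 - h := ⟨_, rfl⟩
  have hs : 0 < s := by rw [hsdef]; linarith
  have hs1 : s ≤ 1 := by rw [hsdef]; linarith
  rw [← hsdef]
  by_cases hx'Ω : x' ∈ Ω
  swap
  · have h0 : foA μ As lam s t Ω z x x' y = 0 := by
      rw [foA]
      rw [lintegral_eq_zero_iff' ?_]
      · refine Filter.Eventually.of_forall fun ω => ?_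
        rw [Set.indicator_apply, if_neg]
        · rfl
        · rintro ⟨-, -, h3⟩
          rw [GR, if_neg (fun hc => hx'Ω hc.1.1), norm_zero] at h3
          exact absurd h3 (not_le.2 hlam)
      · have hm1 := hmeas ι K t N hG lam (Ω \ {x}) z x' x' hz.ne'
        have hm2 := hmeas ι K t N hG lam Ω z x y hz.ne'
        exact ((hm2.enorm.pow_const s).indicator ((measurable_pi_apply x hAs).inter
          ((measurable_pi_apply x' hAs).inter
            (measurableSet_le measurable_const hm1.norm)))).aemeasurable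
    rw [h0]
    exact zero_le
  have hxx' : x' ≠ x := fun hc => hG.nx x (hc ▸ hx')
  -- the reduced quantities
  obtain ⟨W, hW⟩ : ∃ W : Set ι, W = Ω \ {x, x'} := ⟨_, rfl⟩
  have hxW : x ∉ W := by rw [hW]; simp
  have hx'W : x' ∉ W := by rw [hW]; simp
  have inv : ∀ (ω : ι → ℝ) (p : ι) (v : ℝ), p ∉ W → ∀ u w,
      GR t (fun q => lam * Function.update ω p v q) W z u w = GR t (fun q => lam * ω q) W z u w := by
    intro ω p v hp u w
    refine (hsch ι K t N hG (fun q => lam * ω q) W z hz).2.1 _ (fun q hq => ?_) u w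
    have hqp : q ≠ p := fun hc => hp (hc ▸ hq)
    simp only [Function.update_of_ne hqp]
  obtain ⟨A, hA⟩ : ∃ A : (ι → ℝ) → ℂ, A = fun ω => qA t N (fun q => lam * ω q) W z x x' := ⟨_, rfl⟩
  obtain ⟨b, hb⟩ : ∃ b : (ι → ℝ) → ℂ, b = fun ω => qb t N (fun q => lam * ω q) W z x x' := ⟨_, rfl⟩
  obtain ⟨B, hB⟩ : ∃ B : (ι → ℝ) → ℂ, B = fun ω => qB t N (fun q => lam * ω q) W z x' := ⟨_, rfl⟩
  obtain ⟨a, ha⟩ : ∃ a : (ι → ℝ) → ℂ, a = fun ω => qa t N (fun q => lam * ω q) W z x' y := ⟨_, rfl⟩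
  obtain ⟨R, hR⟩ : ∃ R : (ι → ℝ) → ℂ, R = fun ω => qR t N (fun q => lam * ω q) W z x x' y := ⟨_, rfl⟩
  have iA : ∀ (ω : ι → ℝ) (p : ι) (v : ℝ), p ∉ W → A (Function.update ω p v) = A ω := by
    intro ω p v hp
    simp only [hA, qA, inv ω p v hp]
  have ib : ∀ (ω : ι → ℝ) (p : ι) (v : ℝ), p ∉ W → b (Function.update ω p v) = b ω := by
    intro ω p v hp
    simp only [hb, qb, inv ω p v hp]
  have iB : ∀ (ω : ι → ℝ) (p : ι) (v : ℝ), p ∉ W → B (Function.update ω p v) = B ω := by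
    intro ω p v hp
    simp only [hB, qB, inv ω p v hp]
  have ia : ∀ (ω : ι → ℝ) (p : ι) (v : ℝ), p ∉ W → a (Function.update ω p v) = a ω := by
    intro ω p v hp
    simp only [ha, qa, inv ω p v hp]
  have iR : ∀ (ω : ι → ℝ) (p : ι) (v : ℝ), p ∉ W → R (Function.update ω p v) = R ω := by
    intro ω p v hp
    simp only [hR, qR, inv ω p v hp]
  -- the integrand
  obtain ⟨f, hf⟩ : ∃ f : (ι → ℝ) → ℝ≥0∞,
      f = {ω : ι → ℝ | ω x ∈ As ∧ ω x' ∈ As ∧
        lam ≤ ‖GR t (fun p => lam * ω p) (Ω \ {x}) z x' x'‖}.indicator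
        (fun ω => ‖GR t (fun p => lam * ω p) Ω z x y‖ₑ ^ s) := ⟨_, rfl⟩
  have hfm : Measurable f := by
    have hm1 := hmeas ι K t N hG lam (Ω \ {x}) z x' x' hz.ne'
    have hm2 := hmeas ι K t N hG lam Ω z x y hz.ne'
    rw [hf]
    exact (hm2.enorm.pow_const s).indicator ((measurable_pi_apply x hAs).inter
      ((measurable_pi_apply x' hAs).inter (measurableSet_le measurable_const hm1.norm)))
  have hfo : foA μ As lam s t Ω z x x' y = ∫⁻ ω, f ω ∂(Measure.infinitePi fun _ : ι => μ) := by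
    rw [foA, hf]
  -- the potentials are in the set
  have hz0 : ∀ (ω : ι → ℝ) (w v : ℝ), ¬ (v ∈ As ∧ w ∈ As) →
      f (Function.update (Function.update ω x' w) x v) = 0 := by
    intro ω w v hvw
    rw [hf, Set.indicator_of_notMem]
    rintro ⟨h1, h2, -⟩
    apply hvw
    rw [Function.update_self] at h1
    rw [Function.update_of_ne hxx', Function.update_self] at h2
    exact ⟨h1, h2⟩
  have hred : ∀ ω : ι → ℝ, ∫⁻ w, ∫⁻ v, f (Function.update (Function.update ω x' w) x v) ∂μ ∂μ =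
      ∫⁻ w, ∫⁻ v, f (Function.update (Function.update ω x' w) x v) ∂(μ.restrict As)
        ∂(μ.restrict As) := by
    intro ω
    have e1 : ∀ w : ℝ, ∫⁻ v, f (Function.update (Function.update ω x' w) x v) ∂μ =
        As.indicator (fun w => ∫⁻ v, f (Function.update (Function.update ω x' w) x v)
          ∂(μ.restrict As)) w := by
      intro w
      by_cases hw : w ∈ As
      · rw [Set.indicator_of_mem hw, ← lintegral_indicator hAs]
        refine lintegral_congr fun v => ?_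
        by_cases hv : v ∈ As
        · rw [Set.indicator_of_mem hv]
        · rw [Set.indicator_of_notMem hv]
          exact hz0 ω w v fun hc => hv hc.1
      · rw [Set.indicator_of_notMem hw, ← lintegral_zero (μ := μ)]
        refine lintegral_congr fun v => ?_
        exact hz0 ω w v fun hc => hw hc.2
    rw [lintegral_congr e1, lintegral_indicator hAs]
  -- the pointwise bound
  have hpt : ∀ (ω : ι → ℝ) (w v : ℝ),
      f (Function.update (Function.update ω x' w) x v) ≤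
      {w : ℝ | ‖((lam * w : ℝ) : ℂ) - B ω‖ ≤ 1 / lam}.indicator (fun w =>
        ENNReal.ofReal ((‖b ω‖ / ‖(((lam * v : ℝ) : ℂ) - (z + A ω)) *
          (((lam * w : ℝ) : ℂ) - B ω) - b ω ^ 2‖) ^ s) * ‖a ω‖ₑ ^ s +
        ENNReal.ofReal (‖((lam * v : ℝ) : ℂ) -
          (z + A ω + b ω ^ 2 * (((lam * w : ℝ) : ℂ) - B ω)⁻¹)‖⁻¹ ^ s) * ‖R ω‖ₑ ^ s) w := by
    intro ω w v
    obtain ⟨η, hη⟩ : ∃ η : ι → ℝ, η = Function.update (Function.update ω x' w) x v := ⟨_, rfl⟩
    have hηx : η x = v := by rw [hη, Function.update_self]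
    have hηx' : η x' = w := by rw [hη, Function.update_of_ne hxx', Function.update_self]
    have eA : A η = A ω := by rw [hη, iA _ x v hxW, iA _ x' w hx'W]
    have eb : b η = b ω := by rw [hη, ib _ x v hxW, ib _ x' w hx'W]
    have eB : B η = B ω := by rw [hη, iB _ x v hxW, iB _ x' w hx'W]
    have ea : a η = a ω := by rw [hη, ia _ x v hxW, ia _ x' w hx'W]
    have eR : R η = R ω := by rw [hη, iR _ x v hxW, iR _ x' w hx'W]
    rw [← hη]
    obtain ⟨p1, p2, p3⟩ := hpair ι K t N hG (fun p => lam * η p) Ω z hz x x' y hxΩ hx' hx'Ω hyx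
    rw [← hW] at p1 p2 p3
    have qA' : qA t N (fun p => lam * η p) W z x x' = A ω := by rw [← eA, hA]
    have qb' : qb t N (fun p => lam * η p) W z x x' = b ω := by rw [← eb, hb]
    have qB' : qB t N (fun p => lam * η p) W z x' = B ω := by rw [← eB, hB]
    have qa' : qa t N (fun p => lam * η p) W z x' y = a ω := by rw [← ea, ha]
    have qR' : qR t N (fun p => lam * η p) W z x x' y = R ω := by rw [← eR, hR]
    rw [qB', hηx'] at p1
    rw [qA', qb', hηx] at p2
    rw [qb', qa', qR'] at p3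
    rw [hf]
    by_cases hcc : η ∈ {ω : ι → ℝ | ω x ∈ As ∧ ω x' ∈ As ∧
        lam ≤ ‖GR t (fun p => lam * ω p) (Ω \ {x}) z x' x'‖}
    · rw [Set.indicator_of_mem hcc]
      have hc : lam ≤ ‖GR t (fun p => lam * η p) (Ω \ {x}) z x' x'‖ := hcc.2.2
      have hginv : GR t (fun p => lam * η p) (Ω \ {x}) z x' x' =
          (((lam * w : ℝ) : ℂ) - B ω)⁻¹ := eq_inv_of_mul_eq_one_left p1
      obtain ⟨r1, r2⟩ := ptw (((lam * v : ℝ) : ℂ) - (z + A ω)) (((lam * w : ℝ) : ℂ) - B ω)
        (((lam * v : ℝ) : ℂ) - (z + A ω + b ω ^ 2 * (((lam * w : ℝ) : ℂ) - B ω)⁻¹))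
        (b ω) (a ω) (R ω) (GR t (fun p => lam * η p) (Ω \ {x}) z x' x')
        (GR t (fun p => lam * η p) Ω z x x) (GR t (fun p => lam * η p) Ω z x y) 0 lam s hlam hs hs1
        p1 (by rw [← p2]; ring) p3 (by rw [hginv]; ring) hc rfl
      rw [Set.indicator_of_mem (by exact r1)]
      exact r2
    · rw [Set.indicator_of_notMem hcc]
      exact zero_le
  -- the double integral
  obtain ⟨ν, hν⟩ : ∃ ν : Measure ℝ, ν = μ.restrict As := ⟨_, rfl⟩
  rw [← hν] at hDn
  have hinner : ∀ ω : ι → ℝ, ∫⁻ w, ∫⁻ v, f (Function.update (Function.update ω x' w) x v) ∂ν ∂ν ≤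
      ENNReal.ofReal (k1 D lam h) * ‖a ω‖ₑ ^ s + ENNReal.ofReal (k2 D lam h) * ‖R ω‖ₑ ^ s := by
    intro ω
    obtain ⟨S, hS⟩ : ∃ S : Set ℝ, S = {w : ℝ | ‖((lam * w : ℝ) : ℂ) - B ω‖ ≤ 1 / lam} := ⟨_, rfl⟩
    have hcont : Continuous fun w : ℝ => ‖((lam * w : ℝ) : ℂ) - B ω‖ := by fun_prop
    have hSm : MeasurableSet S := by
      rw [hS]
      exact measurableSet_le hcont.measurable measurable_const
    obtain ⟨J, hJ⟩ : ∃ J : ℝ → ℝ≥0∞, J = fun w => ∫⁻ v : ℝ, ENNReal.ofReal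
        ((‖b ω‖ / ‖(((lam * v : ℝ) : ℂ) - (z + A ω)) * (((lam * w : ℝ) : ℂ) - B ω) -
          b ω ^ 2‖) ^ s) ∂ν := ⟨_, rfl⟩
    have haT : ‖a ω‖ₑ ^ s ≠ ∞ := ENNReal.rpow_ne_top_of_nonneg hs.le enorm_ne_top
    have hRT : ‖R ω‖ₑ ^ s ≠ ∞ := ENNReal.rpow_ne_top_of_nonneg hs.le enorm_ne_top
    have h1 : ∀ w : ℝ, ∫⁻ v, f (Function.update (Function.update ω x' w) x v) ∂ν ≤
        S.indicator (fun w => J w * ‖a ω‖ₑ ^ s +
          ENNReal.ofReal (cC D lam h) * ‖R ω‖ₑ ^ s) w := by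
      intro w
      by_cases hw : w ∈ S
      · rw [Set.indicator_of_mem hw]
        have h2 : ∀ v : ℝ, f (Function.update (Function.update ω x' w) x v) ≤
            ENNReal.ofReal ((‖b ω‖ / ‖(((lam * v : ℝ) : ℂ) - (z + A ω)) *
              (((lam * w : ℝ) : ℂ) - B ω) - b ω ^ 2‖) ^ s) * ‖a ω‖ₑ ^ s +
            ENNReal.ofReal (‖((lam * v : ℝ) : ℂ) -
              (z + A ω + b ω ^ 2 * (((lam * w : ℝ) : ℂ) - B ω)⁻¹)‖⁻¹ ^ s) * ‖R ω‖ₑ ^ s := by
          intro v
          have h3 := hpt ω w v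
          rw [← hS, Set.indicator_of_mem hw] at h3
          exact h3
        refine (lintegral_mono h2).trans ?_
        have hm : Measurable fun v : ℝ => ENNReal.ofReal ((‖b ω‖ / ‖(((lam * v : ℝ) : ℂ) -
            (z + A ω)) * (((lam * w : ℝ) : ℂ) - B ω) - b ω ^ 2‖) ^ s) * ‖a ω‖ₑ ^ s := by
          have hc1 : Continuous fun v : ℝ => ‖(((lam * v : ℝ) : ℂ) -
            (z + A ω)) * (((lam * w : ℝ) : ℂ) - B ω) - b ω ^ 2‖ := by fun_prop
          exact (((hc1.measurable.const_div _).pow_const s).ennreal_ofReal).mul_const _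
        rw [lintegral_add_left hm, lintegral_mul_const' _ _ haT, lintegral_mul_const' _ _ hRT]
        refine add_le_add (le_of_eq (by rw [hJ])) ?_
        gcongr
        have h4 := (hone D lam h hD hlam1 hh hh2 ν hDn
          (z + A ω + b ω ^ 2 * (((lam * w : ℝ) : ℂ) - B ω)⁻¹)).1
        rw [← hsdef] at h4
        exact h4
      · rw [Set.indicator_of_notMem hw]
        refine le_of_eq ?_
        rw [← lintegral_zero (μ := ν)]
        refine lintegral_congr fun v => ?_
        have h3 := hpt ω w v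
        rw [← hS, Set.indicator_of_notMem hw] at h3
        exact le_antisymm h3 (zero_le)
    refine (lintegral_mono h1).trans ?_
    rw [lintegral_indicator hSm, lintegral_add_right _ measurable_const,
      lintegral_mul_const' _ _ haT, lintegral_const, Measure.restrict_apply_univ]
    have h5 := htwo D lam h hD hlam1 hh hh2 ν hDn (z + A ω) (B ω) (b ω)
    have h6 := (hone D lam h hD hlam1 hh hh2 ν hDn (B ω)).2.2
    rw [← hsdef] at h5
    rw [← hS] at h5 h6
    refine add_le_add ?_ ?_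
    · gcongr
      rw [hJ]
      exact h5
    · have hcC : 0 ≤ cC D lam h := by
        rw [cC]
        positivity
      calc ENNReal.ofReal (cC D lam h) * ‖R ω‖ₑ ^ s * ν S =
            ENNReal.ofReal (cC D lam h) * ν S * ‖R ω‖ₑ ^ s := by ring
        _ ≤ ENNReal.ofReal (cC D lam h) * ENNReal.ofReal (2 * D / lam ^ 2) * ‖R ω‖ₑ ^ s := by
            gcongr
        _ = ENNReal.ofReal (k2 D lam h) * ‖R ω‖ₑ ^ s := by
            rw [← ENNReal.ofReal_mul hcC, k2, mul_comm (cC D lam h)]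
  -- the moments
  have hGm : ∀ r : ι, Measurable fun ω : ι → ℝ => ‖GR t (fun p => lam * ω p) W z r y‖ₑ ^ s :=
    fun r => (hmeas ι K t N hG lam W z r y hz.ne').enorm.pow_const s
  have htn : ∀ u w : ι, ‖((t u w : ℝ) : ℂ)‖ ≤ 1 := by
    intro u w
    rw [Complex.norm_real, Real.norm_eq_abs]
    exact hG.le u w
  have ha1 : ∀ ω : ι → ℝ, ‖a ω‖ₑ ^ s ≤ (if y = x' then 1 else 0) +
      ∑ r ∈ N x', ‖GR t (fun p => lam * ω p) W z r y‖ₑ ^ s := by
    intro ω
    rw [ha]
    show ‖qa t N (fun q => lam * ω q) W z x' y‖ₑ ^ s ≤ _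
    rw [qa]
    by_cases hy : y = x'
    · rw [if_pos hy, if_pos hy, enorm_neg, enorm_one, ENNReal.one_rpow]
      exact le_self_add
    · rw [if_neg hy, if_neg hy, zero_add]
      exact sum_rpow_le (N x') (fun r => ((t x' r : ℝ) : ℂ))
        (fun r => GR t (fun p => lam * ω p) W z r y) (fun r => htn x' r) s hs hs1
  have hR1 : ∀ ω : ι → ℝ, ‖R ω‖ₑ ^ s ≤
      ∑ w ∈ N x, ‖GR t (fun p => lam * ω p) W z w y‖ₑ ^ s := by
    intro ω
    rw [hR]
    show ‖qR t N (fun q => lam * ω q) W z x x' y‖ₑ ^ s ≤ _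
    rw [qR]
    refine (sum_rpow_le ((N x).erase x') (fun r => ((t x r : ℝ) : ℂ))
        (fun r => GR t (fun p => lam * ω p) W z r y) (fun r => htn x r) s hs hs1).trans ?_
    exact Finset.sum_le_sum_of_subset (Finset.erase_subset _ _)
  -- conclusion
  have hF1 : Measurable fun ω : ι → ℝ => ∫⁻ v, f (Function.update ω x v) ∂μ :=
    (hfm.comp (update_meas x)).lintegral_prod_right' (ν := μ)
  rw [hfo, lint_resample μ x f hfm, lint_resample μ x' _ hF1]
  calc ∫⁻ ω, ∫⁻ w, ∫⁻ v, f (Function.update (Function.update ω x' w) x v) ∂μ ∂μ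
        ∂(Measure.infinitePi fun _ : ι => μ) ≤
      ∫⁻ ω, (ENNReal.ofReal (k1 D lam h) * ((if y = x' then 1 else 0) +
          ∑ r ∈ N x', ‖GR t (fun p => lam * ω p) W z r y‖ₑ ^ s) +
        ENNReal.ofReal (k2 D lam h) *
          ∑ w ∈ N x, ‖GR t (fun p => lam * ω p) W z w y‖ₑ ^ s)
        ∂(Measure.infinitePi fun _ : ι => μ) := by
        refine lintegral_mono fun ω => ?_
        refine (le_of_eq (hred ω)).trans ?_
        rw [← hν]
        refine (hinner ω).trans ?_
        gcongr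
        · exact ha1 ω
        · exact hR1 ω
    _ = _ := by
        have hm1 : Measurable fun ω : ι → ℝ => ∑ r ∈ N x',
            ‖GR t (fun p => lam * ω p) W z r y‖ₑ ^ s :=
          Finset.measurable_sum _ fun r _ => hGm r
        have hm2 : Measurable fun ω : ι → ℝ => ∑ r ∈ N x,
            ‖GR t (fun p => lam * ω p) W z r y‖ₑ ^ s :=
          Finset.measurable_sum _ fun r _ => hGm r
        rw [lintegral_add_right _ (hm2.const_mul _), lintegral_const_mul' _ _ ENNReal.ofReal_ne_top,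
          lintegral_const_mul' _ _ ENNReal.ofReal_ne_top, lintegral_add_left measurable_const,
          lintegral_const, measure_univ, mul_one,
          lintegral_finsetSum _ (fun r _ => hGm r), lintegral_finsetSum _ (fun r _ => hGm r)]
        simp only [fa, hW]

end Pool.Agent.H550.SH

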